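import Pool.Agent.Helper4.TK.StD

/-!
# Project TK (levels `3 * 5^n`): solutions of the relation with given leading forms

The proof follows Pool/Agent/Helper41/TH/M_Led.lean.
-/

set_option autoImplicit false

namespace Pool.Agent.Helper69.TK

open Pool.Agent.Helper4.TK
open Pool.Agent.Helper14.W5 (e5 tr5 Fn5 op5 Wd5 dX dY bb5 S5Trm S5Low0 S5Nfa S5Lw1 S5Bb oA Lw)

private theorem five0 : (5 : ZMod 5) = 0 := by decide

private theorem five {M : Type*} [AddCommGroup M] [Module (ZMod 5) M] (x : M) :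
    (5 : ZMod 5) • x = 0 := by rw [five0, zero_smul]

theorem hLed (ht : S5Trm) (hl : S5Low0) (hn : S5Nfa) (h1 : S5Lw1) (hw : TLw1) (hb : S5Bb)
    (hsu : TSur) : TLed := by
  intro r s al be u v z hal hbe hev hz
  obtain ⟨-, -, -, -, wmono, -, ldx, ldy, -⟩ := hl r s
  obtain ⟨b1, -⟩ := hb r s
  obtain ⟨-, -, -, -, -, -, nA, -⟩ := hn r s
  obtain ⟨l0, -⟩ := h1 r s
  obtain ⟨-, -, wodd, wbe, wal⟩ := hw r s
  have hal' : (al : ℤ) < 5 ^ r := by exact_mod_cast hal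
  have hbe' : (be : ℤ) < 5 ^ s := by exact_mod_cast hbe
  obtain ⟨d, hd⟩ : ∃ d : ℤ, d = (al : ℤ) + be := ⟨_, rfl⟩
  have hodd : Odd (d - 1) := by
    obtain ⟨m, hm'⟩ := hev
    have e : (al : ℤ) + be = m + m := by exact_mod_cast hm'
    exact ⟨(m : ℤ) - 1, by linarith⟩
  -- the operators
  obtain ⟨T, hT⟩ : ∃ T : Module.End (ZMod 5) (Fn5 (5 ^ r) (5 ^ s)), T = op5 1 1 0 1 := ⟨_, rfl⟩
  obtain ⟨ρ, hρ⟩ : ∃ ρ : Module.End (ZMod 5) (Fn5 (5 ^ r) (5 ^ s)), ρ = op5 9 (-2) 3 (-3) :=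
    ⟨_, rfl⟩
  obtain ⟨σ, hσ⟩ : ∃ σ : Module.End (ZMod 5) (Fn5 (5 ^ r) (5 ^ s)), σ = op5 12 (-5) 3 (-6) :=
    ⟨_, rfl⟩
  have hρρ : ∀ F : Fn5 (5 ^ r) (5 ^ s), ρ (ρ F) = op5 17 (-4) 6 (-7) F := by
    intro F
    obtain ⟨m1, m2, m3⟩ := ht (ZMod 5) r s F
    have e1 := m1 9 (-2) 3 (-3) 9 (-2) 3 (-3) (by decide) (by decide) (by decide) (by decide)
    have e2 := m3 3 17 (-4) 6 (-7) (by decide) (by decide) (by decide)
    norm_num at e1 e2
    rw [hρ]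
    change tr5 9 (-2) 3 (-3) (tr5 9 (-2) 3 (-3) F) = tr5 17 (-4) 6 (-7) F
    rw [e1, e2]
  have hρW : ∀ (k : ℤ) (F : Fn5 (5 ^ r) (5 ^ s)), F ∈ Wd5 k → ρ F ∈ Wd5 k := by
    intro k F hF
    have h := l0 9 (-2) 3 (-3) (by decide) (by decide) k F hF
    rw [sub_zero, ← hρ] at h
    exact h
  obtain ⟨P, hP⟩ : ∃ P : Fn5 (5 ^ r) (5 ^ s), P = bb5 al be := ⟨_, rfl⟩
  have hPW : P ∈ Wd5 d := by
    rw [hP, hd]
    exact b1 al be hal hbe
  obtain ⟨cb, hcb⟩ : ∃ cb : ZMod 5, cb = (3 : ZMod 5) ^ (al + 3 * be) := ⟨_, rfl⟩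
  obtain ⟨ca, hca⟩ : ∃ ca : ZMod 5, ca = (2 : ZMod 5) ^ (al + 3 * be) := ⟨_, rfl⟩
  have gb : ρ P - cb • P ∈ Wd5 (d - 1) := by
    have h := wbe al be hal hbe
    rw [← hρ, ← hP, ← hd, ← hcb] at h
    exact h
  have ga : σ P - ca • P ∈ Wd5 (d - 1) := by
    have h := wal al be hal hbe
    rw [← hσ, ← hP, ← hd, ← hca] at h
    exact h
  have hco : v * (cb - 1) + (z - v) * (ca - 1) = 0 := by
    have h4 : (al + 3 * be) % 4 = 0 ∨ (al + 3 * be) % 4 = 2 := by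
      obtain ⟨m, hm'⟩ := hev
      omega
    rcases h4 with h4 | h4
    · obtain ⟨k, hk⟩ : ∃ k, al + 3 * be = 4 * k := ⟨(al + 3 * be) / 4, by omega⟩
      have e3 : (3 : ZMod 5) ^ 4 = 1 := by decide
      have e2 : (2 : ZMod 5) ^ 4 = 1 := by decide
      rw [hcb, hca, hk, pow_mul, pow_mul, e3, e2, one_pow]
      ring
    · obtain ⟨k, hk⟩ : ∃ k, al + 3 * be = 4 * k + 2 := ⟨(al + 3 * be) / 4, by omega⟩
      have e3 : (3 : ZMod 5) ^ 4 = 1 := by decide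
      have e2 : (2 : ZMod 5) ^ 4 = 1 := by decide
      have e4 : (3 : ZMod 5) ^ 2 = 4 := by decide
      have e5 : (2 : ZMod 5) ^ 2 = 4 := by decide
      rw [hcb, hca, hk, pow_add, pow_add, pow_mul, pow_mul, e3, e2, one_pow, e4, e5, hz h4]
      ring
  -- the defect of the first approximation
  obtain ⟨E0, hE0⟩ : ∃ E0 : Fn5 (5 ^ r) (5 ^ s), E0 = u • P - T (u • P) -
      (v • P - ρ (v • P)) - ((z - v) • P - σ ((z - v) • P)) := ⟨_, rfl⟩
  have hE0W : E0 ∈ Wd5 (d - 1) := by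
    have g1 : T P - P ∈ Wd5 (d - 1) := by
      have h := nA d P hPW
      rw [LinearMap.sub_apply, Module.End.one_apply, oA, ← hT] at h
      exact h
    have e : E0 = -(u • (T P - P)) + v • (ρ P - cb • P) + (z - v) • (σ P - ca • P) +
        (v * (cb - 1) + (z - v) * (ca - 1)) • P := by
      rw [hE0]
      simp only [map_smul]
      module
    rw [e, hco, zero_smul, add_zero]
    exact Submodule.add_mem _ (Submodule.add_mem _ (Submodule.neg_mem _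
      (Submodule.smul_mem _ _ g1)) (Submodule.smul_mem _ _ gb)) (Submodule.smul_mem _ _ ga)
  obtain ⟨A1, hA1⟩ : ∃ A1 : Fn5 (5 ^ r) (5 ^ s), A1 = (2 : ZMod 5) • (-E0 + ρ (-E0)) := ⟨_, rfl⟩
  have hA1W : A1 ∈ Wd5 (d - 1) := by
    rw [hA1]
    exact Submodule.smul_mem _ _ (Submodule.add_mem _ (Submodule.neg_mem _ hE0W)
      (hρW _ _ (Submodule.neg_mem _ hE0W)))
  obtain ⟨E1, hE1⟩ : ∃ E1 : Fn5 (5 ^ r) (5 ^ s), E1 = E0 - (A1 - ρ A1) := ⟨_, rfl⟩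
  have hE1W : E1 ∈ Wd5 (d - 2) := by
    have g := wodd (d - 1) E0 hE0W hodd
    rw [← hρρ] at g
    have e : E1 = (5 : ZMod 5) • E0 - (2 : ZMod 5) • (ρ (ρ E0) + E0) := by
      rw [hE1, hA1]
      simp only [map_smul, map_add, map_neg]
      module
    rw [e, five, zero_sub]
    have e2 : d - 1 - 1 = d - 2 := by ring
    rw [e2] at g
    exact Submodule.neg_mem _ (Submodule.smul_mem _ _ g)
  obtain ⟨f2, a2, b2, hf2, ha2, hb2, hEq⟩ := hsu r s (d - 2) E1 (by linarith) hE1W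
  have e3 : d - 2 + 1 = d - 1 := by ring
  rw [e3] at hf2 ha2 hb2
  rw [← hT, ← hρ, ← hσ] at hEq
  obtain ⟨f, hf⟩ : ∃ f : Fn5 (5 ^ r) (5 ^ s), f = u • P - f2 := ⟨_, rfl⟩
  obtain ⟨a, ha⟩ : ∃ a : Fn5 (5 ^ r) (5 ^ s), a = v • P + A1 - a2 := ⟨_, rfl⟩
  obtain ⟨b, hb'⟩ : ∃ b : Fn5 (5 ^ r) (5 ^ s), b = (z - v) • P - b2 := ⟨_, rfl⟩
  have hdef : f - T f - (a - ρ a) - (b - σ b) = 0 := by
    have e : f - T f - (a - ρ a) - (b - σ b) =
        E1 - (f2 - T f2 - (a2 - ρ a2) - (b2 - σ b2)) := by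
      rw [hE1, hE0, hf, ha, hb']
      simp only [map_sub, map_add]
      abel
    rw [e, hEq, sub_self]
  rw [hT, hρ, hσ] at hdef
  have hhK : hK (![f, a, a + b] : Fin 3 → Fn5 (5 ^ r) (5 ^ s)) = b := by
    funext x y
    change (a + b) x y - a x y = b x y
    simp only [Pi.add_apply]
    ring
  refine ⟨![f, a, a + b], ?_, ?_, ?_, ?_⟩
  · intro x y
    rw [hhK]
    exact congrFun (congrFun hdef x) y
  · change f - u • bb5 al be ∈ Wd5 ((al : ℤ) + be - 1)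
    rw [hf, ← hP, ← hd]
    have e : u • P - f2 - u • P = -f2 := by abel
    rw [e]
    exact Submodule.neg_mem _ hf2
  · change a - v • bb5 al be ∈ Wd5 ((al : ℤ) + be - 1)
    rw [ha, ← hP, ← hd]
    have e : v • P + A1 - a2 - v • P = A1 - a2 := by abel
    rw [e]
    exact Submodule.sub_mem _ hA1W ha2
  · change a + b - z • bb5 al be ∈ Wd5 ((al : ℤ) + be - 1)
    rw [ha, hb', ← hP, ← hd]
    have e : v • P + A1 - a2 + ((z - v) • P - b2) - z • P = A1 - a2 - b2 := by module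
    rw [e]
    exact Submodule.sub_mem _ (Submodule.sub_mem _ hA1W ha2) hb2

end Pool.Agent.Helper69.TK
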